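import Pool.Agent.H506R3.LW.AV
import Pool.Agent.H506R3.LW.B
import Pool.Agent.H506R3.LW.BAD
import Pool.Agent.H506R3.LW.BIO
import Pool.Agent.H506R3.LW.BLK
import Pool.Agent.H506R3.LW.BUMP
import Pool.Agent.H506R3.LW.CARD
import Pool.Agent.H506R3.LW.CORE
import Pool.Agent.H506R3.LW.D1
import Pool.Agent.H506R3.LW.DIFF
import Pool.Agent.H506R3.LW.ERR
import Pool.Agent.H506R3.LW.FC
import Pool.Agent.H506R3.LW.GOOD
import Pool.Agent.H506R3.LW.HAAR
import Pool.Agent.H506R3.LW.KER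
import Pool.Agent.H506R3.LW.LIM
import Pool.Agent.H506R3.LW.LOWN
import Pool.Agent.H506R3.LW.MD
import Pool.Agent.H506R3.LW.MEM
import Pool.Agent.H506R3.LW.NS
import Pool.Agent.H506R3.LW.NUML
import Pool.Agent.H506R3.LW.NUMU
import Pool.Agent.H506R3.LW.OPS
import Pool.Agent.H506R3.LW.OV
import Pool.Agent.H506R3.LW.PH
import Pool.Agent.H506R3.LW.PZ
import Pool.Agent.H506R3.LW.RANK
import Pool.Agent.H506R3.LW.REP
import Pool.Agent.H506R3.LW.SUMK
import Pool.Agent.H506R3.LW.SYS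
import Pool.Agent.H506R3.LW.TAIL
import Pool.Agent.H506R3.LW.TRIV
import Pool.Agent.H506R3.LW.UPN
import Pool.Agent.H506R3.LW.W1
import Pool.Agent.H506R3.LW.W2
import Pool.Agent.H506R3.LW.W3

/-!
# Linear widths of the mixed Hölder–Nikol'skii classes in the uniform norm
-/

set_option autoImplicit false

namespace Pool.Agent.Results.MP_e48c23_an.OrderAllDimensions

open MeasureTheory
open scoped ENNReal BigOperators

/-- Normalised Lebesgue measure on the torus `[0,2π)^d`. -/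
noncomputable def TP (d : ℕ) : Measure (Fin d → ℝ) :=
  Measure.pi (fun _ : Fin d => ENNReal.ofReal (2 * Real.pi)⁻¹ •
    volume.restrict (Set.Ico 0 (2 * Real.pi)))

/-- The mixed difference `∏_{j ∈ e} Δ^l_{t_j,j} f`, written out: the sum over `ν ∈ {0,…,l}^e` of
`∏_{j ∈ e} (-1)^(l-ν_j) (l choose ν_j)` times `f(x + ∑_{j ∈ e} ν_j t_j e_j)`. -/
noncomputable def mdiff {d : ℕ} (l : ℕ) (e : Finset (Fin d)) (t : Fin d → ℝ)
    (f : (Fin d → ℝ) → ℂ) : (Fin d → ℝ) → ℂ := fun x =>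
  ∑ ν ∈ Fintype.piFinset (fun j : Fin d => if j ∈ e then Finset.range (l + 1) else {0}),
    (∏ j ∈ e, ((-1 : ℂ)^(l - ν j) * ((l.choose (ν j) : ℕ) : ℂ))) * f (fun j => x j + (ν j : ℝ) * t j)

/-- The class `H^r_∞` (functions on `ℝ^d` that are `2π`-periodic in each variable), defined by the
mixed differences of order `l`. -/
def H (d : ℕ) (r : ℝ) (l : ℕ) : Set ((Fin d → ℝ) → ℂ) :=
  {f | (∀ (x : Fin d → ℝ) (j : Fin d), f (Function.update x j (x j + 2 * Real.pi)) = f x) ∧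
    AEStronglyMeasurable f volume ∧ eLpNorm f ⊤ (TP d) ≤ 1 ∧
    ∀ e : Finset (Fin d), e.Nonempty → ∀ t : Fin d → ℝ,
      eLpNorm (mdiff l e t f) ⊤ (TP d) ≤ ENNReal.ofReal (∏ j ∈ e, |t j| ^ r)}

/-- The Banach space `L_∞` of complex functions on the torus. -/
def Linf (d : ℕ) : Type := Lp ℂ ⊤ (TP d)

/-- The norm of `L_∞`. -/
noncomputable instance instNormLinf (d : ℕ) : NormedAddCommGroup (Linf d) :=
  (inferInstance : NormedAddCommGroup (Lp ℂ ⊤ (TP d)))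

/-- The linear structure of `L_∞`. -/
noncomputable instance instSpaceLinf (d : ℕ) : NormedSpace ℂ (Linf d) :=
  (inferInstance : NormedSpace ℂ (Lp ℂ ⊤ (TP d)))

/-- The element of `L_∞` given by a function. -/
noncomputable def cl {d : ℕ} (f : (Fin d → ℝ) → ℂ) (hf : MemLp f ⊤ (TP d)) : Linf d :=
  hf.toLp f

/-- The operator `A` has rank at most `m`. -/
def RankLE {d : ℕ} (A : Linf d →L[ℂ] Linf d) (m : ℕ) : Prop :=
  A.toLinearMap.rank ≤ m

/-- The error of `A` on a class: the supremum over `f ∈ F` of `‖f - A f‖_∞`. -/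
noncomputable def err {d : ℕ} (A : Linf d →L[ℂ] Linf d) (F : Set ((Fin d → ℝ) → ℂ)) : ℝ≥0∞ :=
  ⨆ (f : (Fin d → ℝ) → ℂ) (_ : f ∈ F) (hf : MemLp f ⊤ (TP d)), ‖cl f hf - A (cl f hf)‖ₑ

/-- The linear width `λ_m(F, L_∞)`: the infimum over the bounded linear operators
`A : L_∞ → L_∞` of rank at most `m` of the supremum over `f ∈ F` of `‖f - A f‖_∞`. -/
noncomputable def linearWidth (d m : ℕ) (F : Set ((Fin d → ℝ) → ℂ)) : ℝ≥0∞ :=
  ⨅ (A : Linf d →L[ℂ] Linf d) (_ : RankLE A m), err A F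

theorem linearWidth_eq (d m : ℕ) (F : Set ((Fin d → ℝ) → ℂ)) :
    linearWidth d m F = H506W.lw d m F := rfl

/-- The order of the linear widths of the classes `H^r_∞` in `L_∞`, for every dimension `d ≥ 1`,
every `r > 0` and every order `l > r` of the differences:
`λ_m(H^r_∞, L_∞) ≍ m^(-r) (log m)^((d-1)(r+1))`. -/
theorem result (d : ℕ) (hd : 1 ≤ d) (r : ℝ) (hr : 0 < r) (l : ℕ) (hl : r < l) :
    ∃ c C : ℝ, 0 < c ∧ 0 < C ∧ ∀ m : ℕ, 2 ≤ m →
      ENNReal.ofReal (c * (m : ℝ) ^ (-r) * (Real.log m) ^ (((d : ℝ) - 1) * (r + 1))) ≤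
        linearWidth d m (H d r l) ∧
      linearWidth d m (H d r l) ≤
        ENNReal.ofReal (C * (m : ℝ) ^ (-r) * (Real.log m) ^ (((d : ℝ) - 1) * (r + 1))) := by
  have hcore := H506W.CORE_proof H506W.B_proof H506W.BAD_proof H506W.GOOD_proof H506W.HAAR_proof
    H506W.RANK_proof
  have hsys := H506W.SYS_proof H506W.OV_proof H506W.SUMK_proof
  obtain ⟨c1, hc1, hlow⟩ := H506W.LOWN_proof hcore hsys H506W.CARD_proof H506W.PZ_proof
    H506W.PH_proof H506W.BIO_proof H506W.BUMP_proof H506W.DIFF_proof H506W.D1_proof H506W.MD_proof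
    H506W.NS_proof H506W.MEM_proof H506W.AV_proof d r l hr hl
  obtain ⟨c2, hc2, hnum⟩ := H506W.NUML_proof d hd r hr
  obtain ⟨C1, hC1, hup⟩ := H506W.UPN_proof H506W.KER_proof H506W.REP_proof H506W.W1_proof
    H506W.W2_proof H506W.W3_proof H506W.BLK_proof H506W.LIM_proof H506W.TAIL_proof
    H506W.ERR_proof H506W.FC_proof H506W.OPS_proof d hd r l hr hl
  obtain ⟨C2, hC2, hnumu⟩ := H506W.NUMU_proof d hd r C1 hr hC1
  refine ⟨c1 * c2, C2, by positivity, hC2, fun m hm => ⟨?_, ?_⟩⟩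
  · obtain ⟨n, hn, hle⟩ := hnum m hm
    refine le_trans (ENNReal.ofReal_le_ofReal ?_) (hlow n m hn)
    calc c1 * c2 * (m : ℝ) ^ (-r) * (Real.log m) ^ (((d : ℝ) - 1) * (r + 1))
        = c1 * (c2 * (m : ℝ) ^ (-r) * (Real.log m) ^ (((d : ℝ) - 1) * (r + 1))) := by ring
      _ ≤ c1 * ((2 : ℝ) ^ (-(r * n)) * HypVol.shp d n) := by gcongr
      _ = c1 * (2 : ℝ) ^ (-(r * n)) * HypVol.shp d n := by ring
  · rcases hnumu m hm with h | ⟨n, hn, hle⟩
    · refine le_trans (H506W.TRIV_proof d m r l) ?_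
      rw [← ENNReal.ofReal_one]
      exact ENNReal.ofReal_le_ofReal h
    · exact le_trans (hup n m hn) (ENNReal.ofReal_le_ofReal hle)

end Pool.Agent.Results.MP_e48c23_an.OrderAllDimensions
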